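import Mathlib

/-!
# The excedance polynomial of the even permutations of five letters has no real root

`A⁺₅(t) = 1 + 11 t + 36 t² + 11 t³ + t⁴ = (t² + 11 t / 2 + 1)² + 15 t² / 4`.
-/

set_option autoImplicit false

namespace Pool.Agent.Results.MP_b94b02_co.NotRealRooted

open Polynomial

/-- the number of excedances of `σ` -/
def exc {n : ℕ} (σ : Equiv.Perm (Fin n)) : ℕ := (Finset.univ.filter fun i => i < σ i).card

/-- the number of even permutations with `k` excedances -/
def P (n k : ℕ) : ℕ :=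
  (Finset.univ.filter fun σ : Equiv.Perm (Fin n) => Equiv.Perm.sign σ = 1 ∧ exc σ = k).card

/-- the number of odd permutations with `k` excedances -/
def Q (n k : ℕ) : ℕ :=
  (Finset.univ.filter fun σ : Equiv.Perm (Fin n) => Equiv.Perm.sign σ = -1 ∧ exc σ = k).card

/-- the polynomial `A⁺_n` -/
noncomputable def Aplus (n : ℕ) : ℝ[X] := ∑ k ∈ Finset.range (n + 1), C (P n k : ℝ) * X ^ k

/-- the polynomial `A⁻_n` -/
noncomputable def Aminus (n : ℕ) : ℝ[X] := ∑ k ∈ Finset.range (n + 1), C (Q n k : ℝ) * X ^ k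

/-- all complex roots are real -/
def RealRooted (p : ℝ[X]) : Prop := ∀ z : ℂ, aeval z p = 0 → z.im = 0

theorem P50 : P 5 0 = 1 := by decide +kernel
theorem P51 : P 5 1 = 11 := by decide +kernel
theorem P52 : P 5 2 = 36 := by decide +kernel
theorem P53 : P 5 3 = 11 := by decide +kernel
theorem P54 : P 5 4 = 1 := by decide +kernel
theorem P55 : P 5 5 = 0 := by decide +kernel

theorem Aplus5 : Aplus 5 = 1 + C 11 * X + C 36 * X ^ 2 + C 11 * X ^ 3 + X ^ 4 := by
  unfold Aplus
  simp only [Finset.sum_range_succ, Finset.sum_range_zero, P50, P51, P52, P53, P54, P55]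
  simp

/-- **`A⁺₅` is not real-rooted, so it is not true that `A⁺_n` and `A⁻_n` are real-rooted for every
`n ≥ 5`.** -/
theorem result : ¬ RealRooted (Aplus 5) ∧
    ¬ ∀ n : ℕ, 5 ≤ n → RealRooted (Aplus n) ∧ RealRooted (Aminus n) := by
  have h5 : ¬ RealRooted (Aplus 5) := by
    intro h
    obtain ⟨z, hz⟩ : ∃ z : ℂ, ((Aplus 5).map (algebraMap ℝ ℂ)).IsRoot z := by
      apply Complex.exists_root
      rw [degree_map, Aplus5]
      have : (1 + C 11 * X + C 36 * X ^ 2 + C 11 * X ^ 3 + X ^ 4 : ℝ[X]).degree = 4 := by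
        compute_degree!
      rw [this]; norm_num
    have hz' : aeval z (Aplus 5) = 0 := by
      rw [IsRoot.def, eval_map_algebraMap] at hz
      exact hz
    have him := h z hz'
    obtain ⟨x, rfl⟩ : ∃ x : ℝ, (x : ℂ) = z := ⟨z.re, Complex.ext rfl (by simp [him])⟩
    rw [Aplus5] at hz'
    simp only [map_add, map_mul, map_pow, aeval_X, aeval_C, map_one] at hz'
    have hx : (1 + 11 * x + 36 * x ^ 2 + 11 * x ^ 3 + x ^ 4 : ℝ) = 0 := by
      have : ((1 + 11 * x + 36 * x ^ 2 + 11 * x ^ 3 + x ^ 4 : ℝ) : ℂ) = 0 := by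
        push_cast
        simpa using hz'
      exact_mod_cast this
    nlinarith [sq_nonneg (x ^ 2 + 11 / 2 * x + 1), sq_nonneg x, sq_nonneg (x + 2 / 11)]
  exact ⟨h5, fun h => h5 (h 5 le_rfl).1⟩

end Pool.Agent.Results.MP_b94b02_co.NotRealRooted
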